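import Pool.Agent.helper52.ED.Spec

set_option autoImplicit false

open Complex Metric Set Filter Topology MeasureTheory
open Pool.Agent.helper98.ILF Pool.Agent.helper16.Multibrot HY

noncomputable section

namespace ED

theorem SPK_norm {x : ℂ} (hx : x ∈ UD) : ‖x‖ < 1 := by
  simpa [UD] using hx

theorem SPK_mem {x : ℂ} (hx : ‖x‖ < 1) : x ∈ UD := by
  simpa [UD] using hx

/-- `‖1 - conj x y‖ ≥ 1 - ‖x‖ ‖y‖`. -/
theorem SPK_den_low (x y : ℂ) : 1 - ‖x‖ * ‖y‖ ≤ ‖1 - (starRingEnd ℂ) x * y‖ := by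
  have h := norm_sub_norm_le (1 : ℂ) ((starRingEnd ℂ) x * y)
  simpa [norm_mul] using h

theorem SPK_den_up (x y : ℂ) : ‖1 - (starRingEnd ℂ) x * y‖ ≤ 1 + ‖x‖ * ‖y‖ := by
  have h := norm_sub_le (1 : ℂ) ((starRingEnd ℂ) x * y)
  simpa [norm_mul] using h

/-- upper bound for `T`: `‖T x y‖ ≤ (‖x‖ + ‖y‖)/(1 + ‖x‖ ‖y‖)`. -/
theorem SPK_up (h : MOB_stmt) {x y : ℂ} (hx : x ∈ UD) (hy : y ∈ UD) :
    ‖T x y‖ ≤ (‖x‖ + ‖y‖) / (1 + ‖x‖ * ‖y‖) := by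
  obtain ⟨_, _, _, _, _, _, _, hf, _⟩ := h x hx
  have hf := hf y hy
  have h1 := SPK_norm hx
  have h2 := SPK_norm hy
  have h3 := norm_nonneg x
  have h4 := norm_nonneg y
  have hd : 0 < 1 - ‖x‖ * ‖y‖ := by nlinarith
  have hlow := SPK_den_low x y
  have hup := SPK_den_up x y
  have hpos : 0 < ‖1 - (starRingEnd ℂ) x * y‖ := lt_of_lt_of_le hd hlow
  have hs : 0 < 1 + ‖x‖ * ‖y‖ := by positivity
  have hnum : 0 ≤ (1 - ‖x‖ ^ 2) * (1 - ‖y‖ ^ 2) := by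
    apply mul_nonneg <;> nlinarith
  have key : (1 - ‖x‖ ^ 2) * (1 - ‖y‖ ^ 2) / (1 + ‖x‖ * ‖y‖) ^ 2 ≤ 1 - ‖T x y‖ ^ 2 := by
    rw [hf]
    apply div_le_div_of_nonneg_left hnum (by positivity)
    exact pow_le_pow_left₀ hpos.le hup 2
  have key2 : 1 - ((‖x‖ + ‖y‖) / (1 + ‖x‖ * ‖y‖)) ^ 2 =
      (1 - ‖x‖ ^ 2) * (1 - ‖y‖ ^ 2) / (1 + ‖x‖ * ‖y‖) ^ 2 := by
    field_simp
    ring
  have h5 : ‖T x y‖ ^ 2 ≤ ((‖x‖ + ‖y‖) / (1 + ‖x‖ * ‖y‖)) ^ 2 := by linarith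
  exact (pow_le_pow_iff_left₀ (norm_nonneg _) (by positivity) (by norm_num)).mp h5

theorem SPK_neg {x : ℂ} (hx : x ∈ UD) : -x ∈ UD := by
  apply SPK_mem
  rw [norm_neg]
  exact SPK_norm hx

theorem SPK_S_eq (a x : ℂ) : S a x = T (-a) x := by
  simp [S, T]

theorem SPK_one (h : MOB_stmt) : ∀ g : ℂ → ℂ, DifferentiableOn ℂ g UD → MapsTo g UD UD → ∀ x ∈ UD, ∀ y ∈ UD, ‖T (g x) (g y)‖ ≤ ‖T x y‖ := by
  intro g hg hm x hx y hy
  obtain ⟨hx1, hx2, hx3, hx4, hx5, hx6⟩ := h x hx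
  obtain ⟨hg1, hg2, hg3, hg4, hg5, hg6⟩ := h (g x) (hm hx)
  have hd : DifferentiableOn ℂ (fun u => T (g x) (g (S x u))) UD := by
    have h1 : DifferentiableOn ℂ (fun u => g (S x u)) UD := hg.comp hx5 (fun u hu => (hx1 u hu).2.1)
    exact hg4.comp h1 (fun u hu => hm (hx1 u hu).2.1)
  have hmaps : MapsTo (fun u => T (g x) (g (S x u))) (ball 0 1) (closedBall 0 1) := by
    intro u hu
    have : T (g x) (g (S x u)) ∈ UD := (hg1 _ (hm (hx1 u hu).2.1)).1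
    exact ball_subset_closedBall this
  have h0 : (fun u => T (g x) (g (S x u))) 0 = 0 := by
    simp only [hx3, hg2]
  have hT := (hx1 y hy).1
  have := Complex.norm_le_norm_of_mapsTo_ball (f := fun u => T (g x) (g (S x u))) (z := T x y) hd hmaps h0 (SPK_norm hT)
  simpa only [(hx1 y hy).2.2.1] using this

theorem SPK (h : MOB_stmt) : SPK_stmt := by
  refine ⟨SPK_one h, ?_, ?_, ?_, ?_, ?_⟩
  · intro x hx y hy
    obtain ⟨_, _, _, _, _, _, _, hf, _⟩ := h x hx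
    have hf := hf y hy
    have hTm := ((h x hx).1 y hy).1
    have h1 := SPK_norm hx
    have h2 := SPK_norm hy
    have h3 := norm_nonneg x
    have h4 := norm_nonneg y
    have h5 := SPK_norm hTm
    have h6 := norm_nonneg (T x y)
    have hlow := SPK_den_low x y
    have hlow2 : 1 - ‖x‖ ≤ ‖1 - (starRingEnd ℂ) x * y‖ := by nlinarith
    have hx0 : 0 < 1 - ‖x‖ := by linarith
    have hnum : 0 ≤ (1 - ‖x‖ ^ 2) * (1 - ‖y‖ ^ 2) := by
      apply mul_nonneg <;> nlinarith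
    have hA : 1 - ‖T x y‖ ≤ 1 - ‖T x y‖ ^ 2 := by nlinarith
    have hB : (1 - ‖x‖ ^ 2) * (1 - ‖y‖ ^ 2) / ‖1 - (starRingEnd ℂ) x * y‖ ^ 2 ≤
        (1 - ‖x‖ ^ 2) * (1 - ‖y‖ ^ 2) / (1 - ‖x‖) ^ 2 :=
      div_le_div_of_nonneg_left hnum (by positivity) (pow_le_pow_left₀ hx0.le hlow2 2)
    have hC : (1 - ‖x‖ ^ 2) * (1 - ‖y‖ ^ 2) / (1 - ‖x‖) ^ 2 ≤ 4 * (1 - ‖y‖) / (1 - ‖x‖) := by
      rw [div_le_div_iff₀ (by positivity) hx0]
      have h7 : (1 - ‖x‖ ^ 2) * (1 - ‖y‖ ^ 2) ≤ 4 * (1 - ‖y‖) * (1 - ‖x‖) := by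
        have : (1 + ‖x‖) * (1 + ‖y‖) ≤ 4 := by nlinarith
        have h8 : 0 ≤ (1 - ‖x‖) * (1 - ‖y‖) := mul_nonneg (by linarith) (by linarith)
        nlinarith
      calc (1 - ‖x‖ ^ 2) * (1 - ‖y‖ ^ 2) * (1 - ‖x‖) ≤ (4 * (1 - ‖y‖) * (1 - ‖x‖)) * (1 - ‖x‖) :=
            mul_le_mul_of_nonneg_right h7 hx0.le
        _ = 4 * (1 - ‖y‖) * (1 - ‖x‖) ^ 2 := by ring
    rw [hf] at hA
    exact hA.trans (hB.trans hC)
  · intro x hx y hy
    have hTm := ((h x hx).1 y hy).1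
    have hyS : S x (T x y) = y := ((h x hx).1 y hy).2.2.1
    have hup := SPK_up h (SPK_neg hx) hTm
    rw [← SPK_S_eq, hyS, norm_neg] at hup
    have h1 := SPK_norm hx
    have h3 := norm_nonneg x
    have h5 := SPK_norm hTm
    have h6 := norm_nonneg (T x y)
    have hs : 0 < 1 + ‖x‖ * ‖T x y‖ := by positivity
    have h7 : 1 - (‖x‖ + ‖T x y‖) / (1 + ‖x‖ * ‖T x y‖) = (1 - ‖x‖) * (1 - ‖T x y‖) / (1 + ‖x‖ * ‖T x y‖) := by
      field_simp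
      ring
    have h8 : (1 - ‖x‖) * (1 - ‖T x y‖) / 2 ≤ (1 - ‖x‖) * (1 - ‖T x y‖) / (1 + ‖x‖ * ‖T x y‖) := by
      apply div_le_div_of_nonneg_left _ hs
      · nlinarith
      · apply mul_nonneg <;> linarith
    linarith
  · intro x hx y hy z hz
    have hxm := ((h y hy).1 x hx)
    have hzm := ((h y hy).1 z hz)
    have hS : MapsTo (S y) UD UD := fun u hu => ((h y hy).1 u hu).2.1
    have hSd : DifferentiableOn ℂ (S y) UD := (h y hy).2.2.2.2.1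
    have h1 := SPK_one h (S y) hSd hS (T y x) hxm.1 (T y z) hzm.1
    rw [hxm.2.2.1, hzm.2.2.1] at h1
    have h2 := SPK_up h hxm.1 hzm.1
    have h3 : (‖T y x‖ + ‖T y z‖) / (1 + ‖T y x‖ * ‖T y z‖) ≤ ‖T y x‖ + ‖T y z‖ := by
      apply div_le_self (by positivity)
      have : 0 ≤ ‖T y x‖ * ‖T y z‖ := by positivity
      linarith
    have h4 : ‖T x y‖ = ‖T y x‖ := by
      obtain ⟨_, _, _, _, _, _, _, _, hs, _⟩ := h x hx
      exact hs y hy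
    rw [h4]
    exact h1.trans (h2.trans h3)
  · intro x hx y hy
    obtain ⟨_, _, _, _, _, _, _, _, hs, _⟩ := h x hx
    exact ⟨hs y hy, SPK_norm ((h x hx).1 y hy).1⟩
  · intro g hg hm x hx
    obtain ⟨hx1, hx2, hx3, hx4, hx5, _, _, _, _, _, hx7, _⟩ := h x hx
    obtain ⟨hg1, hg2, hg3, hg4, hg5, _, _, _, _, hg6, _, _⟩ := h (g x) (hm hx)
    have hUo : IsOpen UD := isOpen_ball
    have h0m : (0 : ℂ) ∈ UD := SPK_mem (by simp)
    have hdd : DifferentiableOn ℂ (fun u => T (g x) (g (S x u))) UD := by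
      have h1 : DifferentiableOn ℂ (fun u => g (S x u)) UD := hg.comp hx5 (fun u hu => (hx1 u hu).2.1)
      exact hg4.comp h1 (fun u hu => hm (hx1 u hu).2.1)
    have h0 : (fun u => T (g x) (g (S x u))) 0 = 0 := by
      simp only [hx3, hg2]
    have hmaps : MapsTo (fun u => T (g x) (g (S x u))) (ball 0 1) (closedBall ((fun u => T (g x) (g (S x u))) 0) 1) := by
      intro u hu
      rw [h0]
      have : T (g x) (g (S x u)) ∈ UD := (hg1 _ (hm (hx1 u hu).2.1)).1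
      exact ball_subset_closedBall this
    have hle := Complex.norm_deriv_le_one_of_mapsTo_ball (f := fun u => T (g x) (g (S x u))) hdd hmaps one_pos
    have e1 : HasDerivAt (S x) (1 - (‖x‖ : ℂ) ^ 2) 0 := by
      have := (hx5.differentiableAt (hUo.mem_nhds h0m)).hasDerivAt
      rwa [hx7] at this
    have e2 : HasDerivAt g (deriv g x) (S x 0) := by
      rw [hx3]
      exact (hg.differentiableAt (hUo.mem_nhds hx)).hasDerivAt
    have e3 : HasDerivAt (T (g x)) ((1 - (‖g x‖ : ℂ) ^ 2) / (1 - (starRingEnd ℂ) (g x) * g x) ^ 2) (g (S x 0)) := by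
      rw [hx3]
      have := (hg4.differentiableAt (hUo.mem_nhds (hm hx))).hasDerivAt
      rwa [hg6 (g x) (hm hx)] at this
    have e4 := (e3.comp 0 (e2.comp 0 e1)).deriv
    have hgx := SPK_norm (hm hx)
    have hxx := SPK_norm hx
    have p1 : 0 < 1 - ‖g x‖ ^ 2 := by nlinarith [norm_nonneg (g x)]
    have p2 : 0 < 1 - ‖x‖ ^ 2 := by nlinarith [norm_nonneg x]
    have hconj : (starRingEnd ℂ) (g x) * g x = ((‖g x‖ ^ 2 : ℝ) : ℂ) := by
      rw [mul_comm, Complex.mul_conj, Complex.normSq_eq_norm_sq]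
    have e5 : ‖deriv (fun u => T (g x) (g (S x u))) 0‖ = ‖deriv g x‖ * (1 - ‖x‖ ^ 2) / (1 - ‖g x‖ ^ 2) := by
      have e6 : deriv (fun u => T (g x) (g (S x u))) 0 =
          (1 - (‖g x‖ : ℂ) ^ 2) / (1 - (starRingEnd ℂ) (g x) * g x) ^ 2 * (deriv g x * (1 - (‖x‖ : ℂ) ^ 2)) := e4
      rw [e6, hconj]
      have q1 : (1 - (‖g x‖ : ℂ) ^ 2) = ((1 - ‖g x‖ ^ 2 : ℝ) : ℂ) := by push_cast; ring
      have q2 : (1 - (‖x‖ : ℂ) ^ 2) = ((1 - ‖x‖ ^ 2 : ℝ) : ℂ) := by push_cast; ring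
      have q3 : (1 - ((‖g x‖ ^ 2 : ℝ) : ℂ)) = ((1 - ‖g x‖ ^ 2 : ℝ) : ℂ) := by push_cast; ring
      rw [q1, q2, q3, norm_mul, norm_mul, norm_div, norm_pow, Complex.norm_real, Complex.norm_real, Real.norm_of_nonneg p1.le,
        Real.norm_of_nonneg p2.le]
      field_simp
    rw [e5] at hle
    unfold hd
    rw [div_le_iff₀ p1]
    rw [div_le_one p1] at hle
    rw [div_mul_eq_mul_div, le_div_iff₀ p2, one_mul]
    exact hle

end ED
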